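import Pool.Agent.Helper92.Ru.GoalsH

/-!
# H13: adapted matrix of a hyperplane spanned by points of a box
-/

set_option autoImplicit false

open NumberField

namespace Pool.Agent.Helper93.Ru

open Pool.Agent.Helper92.Ru

theorem colMat : ColMat := by
  intro k _ _ T ι _ _ _ A w W hrank hsp
  classical
  obtain ⟨b, hbS, hbspan, hbli⟩ := exists_linearIndependent k {x : ι → k | x ∈ W ∧ InBox A w x}
  have hspan : Submodule.span k b = W := by
    rw [hbspan]
    apply le_antisymm
    · exact Submodule.span_le.2 (fun x hx => hx.1)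
    · exact hsp
  have hbfin : b.Finite := hbli.setFinite
  have : Fintype b := hbfin.fintype
  have hcardb : Fintype.card b = Module.finrank k W := by
    have h1 := finrank_span_eq_card hbli
    rw [Subtype.range_coe, hspan] at h1
    exact h1.symm
  obtain ⟨st⟩ := (inferInstance : Nonempty ι)
  have hcard : Fintype.card {j : ι // j ≠ st} = Fintype.card b := by
    have h2 : Fintype.card {j : ι // j ≠ st} = Fintype.card ι - 1 := by
      simp [Fintype.card_subtype_compl]
    omega
  let e : {j : ι // j ≠ st} ≃ b := Fintype.equivOfCardEq hcard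
  -- a standard basis vector outside `W`
  have hi0 : ∃ i0 : ι, (Pi.single i0 (1 : k) : ι → k) ∉ W := by
    by_contra hcon
    push Not at hcon
    have htop : W = ⊤ := by
      rw [eq_top_iff]
      intro x _
      rw [pi_eq_sum_univ' x]
      refine Submodule.sum_mem _ fun i _ => ?_
      refine Submodule.smul_mem _ _ ?_
      have := hcon i
      convert this using 1
    rw [htop, finrank_top, Module.finrank_fintype_fun_eq_card] at hrank
    omega
  obtain ⟨i0, hi0⟩ := hi0
  obtain ⟨B, hBst, hBj'⟩ : ∃ B : Matrix ι ι k, (∀ i, B i st = if i = i0 then 1 else 0) ∧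
      ∀ (j : ι) (h : j ≠ st) (i : ι), B i j = (e ⟨j, h⟩ : ι → k) i := by
    refine ⟨Matrix.of fun i j =>
      if h : j = st then (if i = i0 then 1 else 0) else (e ⟨j, h⟩ : ι → k) i, ?_, ?_⟩
    · intro i
      simp
    · intro j h i
      simp [h]
  have hBj : ∀ (j : ι) (h : j ≠ st), (fun i => B i j) = (e ⟨j, h⟩ : ι → k) := by
    intro j h
    funext i
    exact hBj' j h i
  have hdet : B.det ≠ 0 := by
    intro h0
    obtain ⟨v, hv0, hv⟩ := Matrix.exists_mulVec_eq_zero_iff.2 h0
    have hsum : ∀ i, ∑ j, B i j * v j = 0 := fun i => congrFun hv i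
    -- split the sum
    have hsplit : ∀ i, B i st * v st + ∑ j : {j : ι // j ≠ st}, v j.1 * (e j : ι → k) i = 0 := by
      intro i
      have h1 : ∑ j, B i j * v j = B i st * v st + ∑ j ∈ Finset.univ.erase st, B i j * v j := by
        exact (Finset.add_sum_erase Finset.univ (fun j => B i j * v j) (Finset.mem_univ st)).symm
      have h2 : ∑ j ∈ Finset.univ.erase st, B i j * v j
          = ∑ j : {j : ι // j ≠ st}, v j.1 * (e j : ι → k) i := by
        rw [Finset.sum_subtype (p := fun j => j ≠ st) (Finset.univ.erase st)
          (by intro x; simp) (fun j => B i j * v j)]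
        refine Finset.sum_congr rfl fun j _ => ?_
        rw [hBj' j.1 j.2 i, mul_comm]
      rw [← h2, ← h1]
      exact hsum i
    have hvec : v st • (Pi.single i0 (1 : k) : ι → k)
        + ∑ j : {j : ι // j ≠ st}, v j.1 • (e j : ι → k) = 0 := by
      funext i
      have h3 := hsplit i
      simp only [Pi.add_apply, Pi.smul_apply, Finset.sum_apply, smul_eq_mul, Pi.zero_apply,
        Pi.single_apply]
      rw [hBst i, mul_comm] at h3
      exact h3
    have hsumW : ∑ j : {j : ι // j ≠ st}, v j.1 • (e j : ι → k) ∈ W :=
      Submodule.sum_mem _ fun j _ => Submodule.smul_mem _ _ (hbS (e j).2).1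
    have hvst : v st = 0 := by
      by_contra hne
      apply hi0
      have h4 : v st • (Pi.single i0 (1 : k) : ι → k) ∈ W := by
        have h5 : v st • (Pi.single i0 (1 : k) : ι → k)
            = -∑ j : {j : ι // j ≠ st}, v j.1 • (e j : ι → k) :=
          eq_neg_of_add_eq_zero_left hvec
        rw [h5]
        exact Submodule.neg_mem _ hsumW
      exact (Submodule.smul_mem_iff _ hne).1 h4
    rw [hvst, zero_smul, zero_add] at hvec
    have hli : LinearIndependent k (fun j : {j : ι // j ≠ st} => (e j : ι → k)) :=
      hbli.comp e e.injective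
    have hzero := Fintype.linearIndependent_iff.1 hli (fun j => v j.1) hvec
    apply hv0
    funext j
    by_cases hj : j = st
    · rw [hj]; exact hvst
    · exact hzero ⟨j, hj⟩
  have hunit : IsUnit B.det := isUnit_iff_ne_zero.2 hdet
  have hinv : B⁻¹ * B = 1 := Matrix.nonsing_inv_mul B hunit
  refine ⟨B, st, i0, hdet, ?_, ?_, hBst, ?_, ?_, ?_⟩
  · intro i j
    by_cases hj : j = st
    · rw [hj, hBst i]
      split_ifs
      · exact SInt.one
      · exact SInt.zero
    · rw [hBj' j hj i]
      exact (hbS (e ⟨j, hj⟩).2).2.1 i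
  · intro v i j hj
    have h1 : (A v * B) i j = (A v).mulVec (fun i => B i j) i := rfl
    rw [h1, hBj j hj]
    exact (hbS (e ⟨j, hj⟩).2).2.2 v i
  · intro j hj
    rw [hBj j hj]
    exact (hbS (e ⟨j, hj⟩).2).1
  · let L : (ι → k) →ₗ[k] k :=
      { toFun := fun x => ∑ i, B⁻¹ st i * x i
        map_add' := fun x y => by
          simp only [Pi.add_apply, mul_add, Finset.sum_add_distrib]
        map_smul' := fun c x => by
          simp only [Pi.smul_apply, smul_eq_mul, RingHom.id_apply, Finset.mul_sum]
          exact Finset.sum_congr rfl fun i _ => by ring }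
    have hker : W ≤ LinearMap.ker L := by
      rw [← hspan]
      refine Submodule.span_le.2 ?_
      intro x hx
      obtain ⟨j, hj⟩ := e.surjective ⟨x, hx⟩
      have h6 : x = fun i => B i j.1 := by
        rw [hBj j.1 j.2, hj]
      show ∑ i, B⁻¹ st i * x i = 0
      rw [h6]
      have h7 := congrFun (congrFun hinv st) j.1
      rw [Matrix.mul_apply, Matrix.one_apply_ne (Ne.symm j.2)] at h7
      exact h7
    intro x hx
    exact hker hx
  · intro h0
    have h7 := congrFun (congrFun hinv st) st
    rw [Matrix.mul_apply, Matrix.one_apply_eq] at h7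
    rw [h0] at h7
    simp at h7

end Pool.Agent.Helper93.Ru
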